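import Pool.Agent.TH118.Tor.Parity

/-!
# Torsion growth in the middle degree and Singer's conjecture

The elements of `𝓜` are closed oriented aspherical manifolds `M` with a decreasing sequence of normal
subgroups `Γ_n` of finite index of the fundamental group, with trivial intersection; `Towers 𝓜` lists
the (known) properties of the homology of the covers `M_n` and of the `L²`-invariants that are used.
`T.Q1` is the statement Q1 of the problem for the elements of `𝓜`.

Theorem.  Suppose that `𝓜` contains an `L²`-acyclic manifold `H` of odd dimension with `ρ(H) ≠ 0`,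
for instance a closed hyperbolic manifold of dimension three.  If Q1 is true then

  `b_j^{(2)}(M) = 0`  unless  `2 j ≡ dim M` modulo 4,

for all closed oriented aspherical manifolds `M` with residually finite fundamental group.

Thus Q1, a statement about manifolds all of whose `L²`-Betti numbers vanish, implies Singer's
conjecture for the manifolds `M` of odd dimension and of dimension four, and that only every
second `L²`-Betti number can be different from zero in even dimensions.

Proof.  Let `H` be as above, `N` of dimension `2 l`.  The group `tors H_{a+l}(H_n × N_n)` contains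
`tors H_a(H_n) ⊗ (H_l(N_n) / tors)`, and Q1 for `H` and `H × N` gives `b_l^{(2)}(N) ≤ (-1)^l χ(N)`.
For `N = A × A` the left side is `∑ b_j^{(2)}(A)²`, and the right side is `χ(A)²` up to the sign
(zero, if `A` has odd dimension).  So `(∑ b_j^{(2)}(A))² ≤ (dim A + 1) χ(A)²`, and for the powers
`A = M^m` this yields `∑ b_j^{(2)}(M) ≤ |χ(M)|`.
-/

namespace Pool.Agent.Results.MP_98dedd_gt.BettiNumbersModFour

open Pool.Agent.TH118.Tor

/-- **Q1 implies that `b_j^{(2)}(M) = 0` unless `2 j ≡ dim M` modulo four.** -/
theorem result {𝓜 : Type*} (T : Towers 𝓜) (H : 𝓜) (hodd : Odd (T.dim H)) (hac : T.L2Acyclic H)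
    (hrho : T.rho H ≠ 0)
    (hchi : ∀ M, (T.chi M : ℝ) = ∑ j ∈ Finset.range (T.dim M + 1), (-1) ^ j * T.beta M j)
    (h : T.Q1) (M : 𝓜) (j : ℕ) (hj : ¬ ((2 * j : ℤ) ≡ T.dim M [ZMOD 4])) : T.beta M j = 0 :=
  parity T h H hodd hac hrho hchi M j hj

end Pool.Agent.Results.MP_98dedd_gt.BettiNumbersModFour
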