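import Pool.Agent.TH118.Tor.Main

/-!
# Torsion growth and the sign of the Euler characteristic

The elements of `𝓜` are closed oriented aspherical manifolds `M` with a decreasing sequence of normal
subgroups `Γ_n` of finite index of the fundamental group, with trivial intersection; `Towers 𝓜` lists
the (known) properties of the homology of the covers `M_n` and of the `L²`-invariants that are used.
`T.Approximation M m` is the statement of Q1 for `M`, `dim M = 2 m + 1`.

Theorem.  Let `H` be an `L²`-acyclic manifold of dimension `2 a + 1` with `ρ(H) ≠ 0`, for instance a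
closed hyperbolic manifold of dimension three, and let `N` be a manifold of dimension `2 l`.  If
Q1 is true for `H` and for `H × N` then

  `b_l^{(2)}(N) ≤ (-1)^l χ(N)`,  i.e.  `∑_{i ≠ l} (-1)^{i-l} b_i^{(2)}(N) ≥ 0`.

In particular, Q1 in dimensions 3 and `2 l + 3` implies `(-1)^l χ(N) ≥ 0` for all closed oriented
aspherical manifolds `N` of dimension `2 l` with residually finite fundamental group (Hopf's
conjecture); and Q1 in dimensions 3 and 7 implies Singer's conjecture for those of dimension
four, because `χ(N) = b_2^{(2)} - 2 b_1^{(2)}` (`l = 2`).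

Proof.  The group `tors H_{a+l}(H_n × N_n)` contains `tors H_a(H_n) ⊗ (H_l(N_n) / tors)`.
-/

namespace Pool.Agent.Results.MP_98dedd_gt.EulerCharacteristic

open Pool.Agent.TH118.Tor

/-- **Q1 for `H` and `H × N` bounds the middle `L²`-Betti number of `N` by the Euler
characteristic.** -/
theorem result {𝓜 : Type*} (T : Towers 𝓜) (H N : 𝓜) (a l : ℕ) (_hH : T.dim H = 2 * a + 1)
    (hac : T.L2Acyclic H) (hrho : T.rho H ≠ 0) (_hN : T.dim N = 2 * l)
    (h1 : T.Approximation H a) (h2 : T.Approximation (T.prod H N) (a + l)) :
    T.beta N l ≤ (-1) ^ l * T.chi N :=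
  beta_le_chi T H N a l hac hrho h1 h2

end Pool.Agent.Results.MP_98dedd_gt.EulerCharacteristic
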