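import Mathlib

/-!
# Approximation of L²-torsion by torsion in homology: large dimensions are enough
-/

open Filter Topology

universe u

namespace Pool.Agent.Results.MP_98dedd_gt.LargeDimensions

/-- Closed aspherical manifolds `M` of odd dimension `2k + 1` with vanishing `L²`-Betti numbers and a
chain of finite-index normal subgroups of the fundamental group with trivial intersection, and their
products with a surface of genus two. -/
structure Chains where
  /-- the pairs `(M, (Γ_n))` -/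
  Obj : Type u
  /-- the number `k` with `dim M = 2k + 1` -/
  k : Obj → ℕ
  /-- the index of `Γ_n` -/
  idx : Obj → ℕ → ℕ
  idx_pos : ∀ o n, 0 < idx o n
  /-- the logarithm of the order of the torsion of `H_j(M_n; ℤ)` -/
  t : Obj → ℤ → ℕ → ℝ
  t_nonneg : ∀ o j n, 0 ≤ t o j n
  t_bound : ∀ o j, ∃ C : ℝ, ∀ n, t o j n ≤ C * idx o n
  /-- the `L²`-torsion -/
  ρ : Obj → ℝ
  /-- the indices of a chain in the fundamental group of the surface -/
  δ : ℕ → ℕ
  δ_pos : ∀ n, 0 < δ n
  δ_tendsto : Tendsto (fun n => (δ n : ℝ)) atTop atTop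
  /-- the product with the surface and the product of the chains -/
  surf : Obj → Obj
  k_surf : ∀ o, k (surf o) = k o + 1
  idx_surf : ∀ o n, idx (surf o) n = idx o n * δ n
  t_surf : ∀ (o : Obj) (n : ℕ), t (surf o) ((k o : ℤ) + 1) n =
    t o ((k o : ℤ) + 1) n + (2 + 2 * δ n) * t o (k o) n + t o ((k o : ℤ) - 1) n
  ρ_surf : ∀ o, ρ (surf o) = -2 * ρ o

variable (T : Chains.{u})

/-- The equality of the question for `(M, (Γ_n))`. -/
def Holds (o : T.Obj) : Prop :=
  Tendsto (fun n => T.t o (T.k o) n / T.idx o n) atTop (𝓝 ((-1) ^ T.k o * T.ρ o))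

lemma error_tendsto (o : T.Obj) :
    Tendsto (fun n => (T.t o ((T.k o : ℤ) + 1) n + 2 * T.t o (T.k o) n +
      T.t o ((T.k o : ℤ) - 1) n) / (T.idx o n * T.δ n)) atTop (𝓝 0) := by
  obtain ⟨C₁, h1⟩ := T.t_bound o ((T.k o : ℤ) + 1)
  obtain ⟨C₂, h2⟩ := T.t_bound o (T.k o)
  obtain ⟨C₃, h3⟩ := T.t_bound o ((T.k o : ℤ) - 1)
  have hlim : Tendsto (fun n => (C₁ + 2 * C₂ + C₃) / (T.δ n : ℝ)) atTop (𝓝 0) :=
    T.δ_tendsto.const_div_atTop _
  refine squeeze_zero (fun n => ?_) (fun n => ?_) hlim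
  · have := T.t_nonneg o ((T.k o : ℤ) + 1) n
    have := T.t_nonneg o (T.k o) n
    have := T.t_nonneg o ((T.k o : ℤ) - 1) n
    positivity
  · have hi : (0 : ℝ) < T.idx o n := by exact_mod_cast T.idx_pos o n
    have hd : (0 : ℝ) < T.δ n := by exact_mod_cast T.δ_pos n
    rw [div_le_div_iff₀ (mul_pos hi hd) hd]
    have := h1 n
    have := h2 n
    have := h3 n
    have h4 : T.t o ((T.k o : ℤ) + 1) n + 2 * T.t o (T.k o) n + T.t o ((T.k o : ℤ) - 1) n ≤
        (C₁ + 2 * C₂ + C₃) * T.idx o n := by linarith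
    calc _ ≤ (C₁ + 2 * C₂ + C₃) * T.idx o n * T.δ n := mul_le_mul_of_nonneg_right h4 hd.le
      _ = _ := by ring

/-- The equality holds for `M × Σ` if and only if it holds for `M`. -/
lemma holds_surf (o : T.Obj) : Holds T (T.surf o) ↔ Holds T o := by
  have hkey : ∀ n, T.t (T.surf o) (T.k (T.surf o)) n / T.idx (T.surf o) n =
      2 * (T.t o (T.k o) n / T.idx o n) + (T.t o ((T.k o : ℤ) + 1) n + 2 * T.t o (T.k o) n +
        T.t o ((T.k o : ℤ) - 1) n) / (T.idx o n * T.δ n) := by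
    intro n
    have hi : (T.idx o n : ℝ) ≠ 0 := by exact_mod_cast (T.idx_pos o n).ne'
    have hd : (T.δ n : ℝ) ≠ 0 := by exact_mod_cast (T.δ_pos n).ne'
    have e : ((T.k (T.surf o) : ℕ) : ℤ) = (T.k o : ℤ) + 1 := by
      rw [T.k_surf]
      push_cast
      ring
    rw [e, T.t_surf, T.idx_surf, Nat.cast_mul]
    field_simp
    ring
  have hval : (-1 : ℝ) ^ T.k (T.surf o) * T.ρ (T.surf o) = 2 * ((-1) ^ T.k o * T.ρ o) := by
    rw [T.k_surf, T.ρ_surf, pow_succ]
    ring
  unfold Holds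
  rw [hval, tendsto_congr hkey]
  constructor
  · intro h
    have h1 := (h.sub (error_tendsto T o)).const_mul (1 / 2 : ℝ)
    rw [sub_zero] at h1
    have e2 : (1 / 2 : ℝ) * (2 * ((-1) ^ T.k o * T.ρ o)) = (-1) ^ T.k o * T.ρ o := by ring
    rw [e2] at h1
    refine h1.congr fun n => ?_
    ring
  · intro h
    have h1 := (h.const_mul 2).add (error_tendsto T o)
    rw [add_zero] at h1
    exact h1

lemma exists_large (l : ℕ) : ∀ o : T.Obj, ∃ o' : T.Obj, T.k o' = T.k o + l ∧
    (Holds T o' ↔ Holds T o) := by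
  induction l with
  | zero => exact fun o => ⟨o, rfl, Iff.rfl⟩
  | succ l ih =>
    intro o
    obtain ⟨o', h1, h2⟩ := ih o
    refine ⟨T.surf o', ?_, (holds_surf T o').trans h2⟩
    rw [T.k_surf, h1]
    ring

/-- The equality for `M × Σ` is equivalent to the equality for `M`; and the equality holds for all
`(M, (Γ_n))` if and only if it holds for those with `dim M = 2k + 1`, `k` in `D`, for a given
unbounded set `D`. -/
theorem result (D : Set ℕ) (hD : ∀ N : ℕ, ∃ k ∈ D, N ≤ k) :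
    (∀ o, Holds T (T.surf o) ↔ Holds T o) ∧
      ((∀ o, Holds T o) ↔ ∀ o, T.k o ∈ D → Holds T o) := by
  refine ⟨holds_surf T, fun h o _ => h o, fun h o => ?_⟩
  obtain ⟨k, hk, hle⟩ := hD (T.k o)
  obtain ⟨o', h1, h2⟩ := exists_large T (k - T.k o) o
  refine h2.1 (h o' ?_)
  rw [h1, Nat.add_sub_cancel' hle]
  exact hk

end Pool.Agent.Results.MP_98dedd_gt.LargeDimensions
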