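import Pool.Agent.TH630.TG.Main

/-!
# Torsion in the homology of finite covers does not approximate the `L²`-torsion

Q1 of `MP_98dedd_gt` asserts that for every closed aspherical manifold `X` of dimension `2k+1` all of
whose `L²`-Betti numbers vanish, and every residual chain of normal subgroups of finite index,
`log |tors H_k(X_n)| / [Γ : Γ_n]` converges to `(-1)^k ρ(X)`.

The theorem: let `M` be a closed aspherical manifold of odd dimension which is `L²`-acyclic and has
`ρ(M) ≠ 0` (for example a closed hyperbolic `3`-manifold), and let `N` be a closed aspherical
manifold of odd dimension whose mod `p` homology grows linearly along some residual chain, for some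
prime `p`. Then the formula fails for `M`, for `M × N × N` or for one of the odd powers `N^(2s+1)`
of `N`, with the product chains. By Avramidi, Okun and Schreve there are such `N` in all odd
dimensions `≥ 7`, for all odd primes; so Q1 has a negative answer.

Proof. If the formula holds for `M`, the torsion of `H_c(M_n)` grows exponentially, `dim M = 2c+1`.
By the Künneth formula the torsion of the middle homology of `M_n × N_n × N_n` contains
`tors H_c(M_n) ⊗ H_d(N_n × N_n)`, `d = dim N`; its normalised logarithm tends to
`|ρ(M)| ∑ b_i(N) b_{d-i}(N) = |ρ(M)| ∑ b_i(N)²`, with the `L²`-Betti numbers `b_i(N)` of `N`. The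
formula for `M × N × N` predicts `χ(N × N) ρ(M) = 0`. Hence `N` is `L²`-acyclic, and this needs no
hypothesis on the Singer conjecture. Now the odd powers of `N` are `L²`-acyclic with vanishing
`L²`-torsion. Let `d = 2a + 1`, `i = a - s` with `s ≥ 1`, and `i' = a + s`. By Poincaré duality
`tors H_i(N_n)` and `tors H_i'(N_n)` are isomorphic, and the torsion of the middle homology of
`N_n^(2s+1)` contains the tensor product of `s` copies of the first and `s + 1` copies of the second
group, in degree `s i + (s+1) i' = (2s+1) a + s`. If `i = a`, the torsion of the middle homology of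
`N_n × (N_n × N_n)` contains `tors H_a(N_n) ⊗ tors H_{2a+1}(N_n × N_n)`, and by Poincaré duality the
second factor is isomorphic to `tors H_{2a}(N_n × N_n)`, which contains
`tors H_a(N_n) ⊗ tors H_a(N_n)`. Hence the `p`-rank of `tors H_i(N_n)` grows sublinearly, for all
`i`, and so do the mod `p` Betti numbers.

The structure `Towers` lists the data (homology of the covers, `L²`-Betti numbers, `L²`-torsion,
Euler characteristic, products), and `AsphericalTowers` the classical facts about them which are
used.
-/

namespace Pool.Agent.Results.MP_98dedd_gt.TorsionApproximationFails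

open TH630.TG Filter Topology

theorem result (T : AsphericalTowers) (M N : T.Man)
    (hM : Odd (T.dim M)) (hac : ∀ j, T.b2 M j = 0) (hρ : T.rho M ≠ 0)
    (hN : Odd (T.dim N)) (p : ℕ) [Fact p.Prime] (i : ℕ)
    (hg : ¬ Tendsto (T.modGrowth p N i) atTop (𝓝 0)) :
    T.Fails M ∨ T.Fails (T.prod M (T.prod N N)) ∨
      ∃ s, 1 ≤ s ∧ s ≤ max 1 (T.dim N / 2) ∧ T.Fails (T.oddPow N s) :=
  AsphericalTowers.fails_of_growth M N hM hac hρ hN p i hg

end Pool.Agent.Results.MP_98dedd_gt.TorsionApproximationFails
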